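import Mathlib
import Pool.Agent.N818.IL.Stm
import Pool.Agent.N873.UT.LOW

/-!
# IL-NFK: the set `NF F` as a set of residue classes

Squarefree numbers in one class modulo `MF F = 8 ∏ |a b (a² - b²)|` have the same quadratic symbols at the
primes in question, so one of them lies in `NF F` if and only if the other one does.
-/

set_option autoImplicit false

open scoped Classical

namespace Pool.Agent.N907.IL

open Finset
open Pool.Agent.N873.UT (Pr NF Adm S_LOW t_LOW)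
open Pool.Agent.N818.IL (MF KF S_NFK)

namespace NFK

theorem one_pos {c : ℤ × ℤ} (h : Pr c) : 0 < (c.1 * c.2 * (c.1 ^ 2 - c.2 ^ 2)).natAbs := by
  obtain ⟨-, h1, h2, h3⟩ := h
  rw [Int.natAbs_pos]
  refine mul_ne_zero (mul_ne_zero ?_ h3) ?_
  · intro h0
    rw [h0] at h1
    norm_num at h1
  · intro h0
    have h4 : c.1 ^ 2 = c.2 ^ 2 := by linarith
    have h5 : Odd (c.1 ^ 2) := (Int.odd_iff.2 h1).pow
    have h6 : Even (c.2 ^ 2) := (Int.even_iff.2 h2).pow_of_ne_zero two_ne_zero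
    rw [h4] at h5
    exact (Int.not_even_iff_odd.2 h5) h6

theorem MF_pos {F : Finset (ℤ × ℤ)} (hF : ∀ c ∈ F, Pr c) : 0 < MF F :=
  Nat.mul_pos (by norm_num) (prod_pos fun c hc => one_pos (hF c hc))

theorem dvd_MF {F : Finset (ℤ × ℤ)} {c : ℤ × ℤ} (hc : c ∈ F) {p : ℕ}
    (h : (p : ℤ) ∣ c.1 * c.2 * (c.1 ^ 2 - c.2 ^ 2)) : (p : ℤ) ∣ (MF F : ℤ) := by
  have h1 : p ∣ (c.1 * c.2 * (c.1 ^ 2 - c.2 ^ 2)).natAbs := by
    rw [← Int.natCast_dvd]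
    exact h
  have h2 : p ∣ MF F :=
    (h1.trans (dvd_prod_of_mem (fun c : ℤ × ℤ => (c.1 * c.2 * (c.1 ^ 2 - c.2 ^ 2)).natAbs) hc)).trans
      (Dvd.intro_left 8 rfl)
  exact_mod_cast h2

theorem sym_eq {m n M : ℤ} {p : ℕ} (hpM : (p : ℤ) ∣ M) (h : M ∣ m - n) :
    jacobiSym m p = jacobiSym n p := by
  have h1 : m % p = n % p :=
    Int.emod_eq_emod_iff_emod_sub_eq_zero.2 (Int.emod_eq_zero_of_dvd (hpM.trans h))
  rw [jacobiSym.mod_left m p, jacobiSym.mod_left n p, h1]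

theorem mem_of {F : Finset (ℤ × ℤ)} {n n' : ℕ} (hn : Squarefree n)
    (hn' : n' ∈ NF F) (h : n % MF F = n' % MF F) : n ∈ NF F := by
  obtain ⟨-, h8, hA⟩ := hn'
  have hd : ((MF F : ℕ) : ℤ) ∣ (n' : ℤ) - n := Nat.modEq_iff_dvd.1 (show n ≡ n' [MOD MF F] from h)
  have hd' : ((MF F : ℕ) : ℤ) ∣ -(n : ℤ) - -(n' : ℤ) := by
    have : -(n : ℤ) - -(n' : ℤ) = (n' : ℤ) - n := by ring
    rw [this]
    exact hd
  have hd'' : ((MF F : ℕ) : ℤ) ∣ (n : ℤ) - (n' : ℤ) := (dvd_sub_comm).1 hd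
  have h8' : n % 8 = 3 := by
    have h1 : n ≡ n' [MOD 8] := Nat.ModEq.of_dvd (Dvd.intro _ rfl) (show n ≡ n' [MOD MF F] from h)
    rw [← h8]
    exact h1
  refine ⟨hn, h8', fun c hc => ?_⟩
  have hA' := hA c hc
  refine ⟨hn, h8', hA'.cop, hA'.a2, hA'.b2, hA'.b0, fun p hp hp2 hpd => ?_, fun p hp hp2 hpd => ?_⟩
  · rw [sym_eq (dvd_MF hc (hpd.mul_right _)) hd']
    exact hA'.ab p hp hp2 hpd
  · rw [sym_eq (dvd_MF hc (hpd.mul_left _)) hd'']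
    exact hA'.dd p hp hp2 hpd

theorem nonempty_of {F : Finset (ℤ × ℤ)} {c : ℝ} (hc : 0 < c) {X₀ : ℕ}
    (h : ∀ X : ℕ, X₀ ≤ X → c * X ≤ (((Icc 1 X).filter fun n => n ∈ NF F).card : ℝ)) :
    ∃ n, n ∈ NF F := by
  have h1 := h (X₀ + 1) (Nat.le_succ _)
  have h2 : (0 : ℝ) < c * ((X₀ + 1 : ℕ) : ℝ) := by positivity
  have h3 : 0 < ((Icc 1 (X₀ + 1)).filter fun n => n ∈ NF F).card := by
    exact_mod_cast h2.trans_le h1
  obtain ⟨n, hn⟩ := card_pos.1 h3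
  exact ⟨n, (mem_filter.1 hn).2⟩

theorem main (hL : S_LOW) : S_NFK := by
  intro F hF
  have h0 := MF_pos hF
  refine ⟨h0, fun n => ⟨fun hn => ⟨hn.1, ?_⟩, fun hn => ?_⟩, ?_, fun r hr => ?_⟩
  · exact mem_filter.2 ⟨mem_range.2 (Nat.mod_lt _ h0), n, hn, rfl⟩
  · obtain ⟨-, n', hn', he⟩ := mem_filter.1 hn.2
    exact mem_of hn.1 hn' he.symm
  · obtain ⟨c, hc, X₀, h⟩ := hL F hF
    obtain ⟨n, hn⟩ := nonempty_of hc h
    exact ⟨n % MF F, mem_filter.2 ⟨mem_range.2 (Nat.mod_lt _ h0), n, hn, rfl⟩⟩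
  · obtain ⟨hr1, n', hn', he⟩ := mem_filter.1 hr
    have h8 : r % 8 = 3 := by
      rw [← he, Nat.mod_mod_of_dvd _ (Dvd.intro _ rfl : 8 ∣ MF F)]
      exact hn'.2.1
    refine ⟨mem_range.1 hr1, h8, n', hn'.1, he, ?_⟩
    have := hn'.2.1
    omega

end NFK

/-- the part IL-NFK -/
theorem t_NFK : Pool.Agent.N818.IL.S_NFK := NFK.main t_LOW

end Pool.Agent.N907.IL
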